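import Pool.Agent.Helper22.NEARg.Defs
import Pool.Agent.Helper54.T5g.KeysOf

/-!
# T5g, block NEARb: the windows depend on the deep keys only
-/

set_option autoImplicit false

namespace Pool.Agent.Helper22.NEARg

open Finset
open Pool.Agent.Helper5.ET hiding Key Mk AA Rp keysOf el ext
open Pool.Agent.Helper27.T4
open Pool.Agent.Helper27.T5g Pool.Agent.Helper27.T5b Pool.Agent.Helper37.T5g
open Pool.Agent.Helper30.T5g hiding pz_prime pz_inj
open Pool.Agent.Helper22.HW Pool.Agent.Helper22.SL Pool.Agent.Helper57.T5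
open Pool.Agent.Helper39.T5 Pool.Agent.Helper50.T5
open Pool.Agent.Helper84.T5g Pool.Agent.Helper44.T5 Pool.Agent.Helper44.T5g Pool.Agent.Helper44.T5b

variable {m : Sq} {k l l' s t : ℕ}

theorem keysD_sub (m : Sq) (k l s : ℕ) : keysD m k l s ⊆ keysOf m k l := by
  classical
  exact filter_subset _ _

theorem keysD_anti {s s' : ℕ} (h : s ≤ s') : keysD m k l s' ⊆ keysD m k l s := by
  classical
  intro q hq
  unfold keysD at hq ⊢
  rw [mem_filter] at hq ⊢
  refine ⟨hq.1, ?_⟩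
  have h2 := hq.2
  cases q with
  | J a b c => exact h2
  | S a t b c d => exact le_trans h h2
  | V a b c => exact h2

theorem deep_sub {K : Finset Key} (hK : keysOf m k l ⊆ K) (hK' : keysOf m k l' ⊆ K) :
    deep m k l l' s ⊆ K := by
  unfold deep
  exact union_subset ((keysD_sub m k l s).trans hK) ((keysD_sub m k l' s).trans hK')

theorem key_mem_keysD (hm : m.Ok) (hl : bb 0 ≤ mL m k l) (hs : s ≤ t) (ht : t < rL m k l)
    {y : Fin 3 → ℕ} (hy : y ∈ Ys m k l t) (f : Fin 3) :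
    (Ss m k l t 0).key f y ∈ keysD m k l s := by
  classical
  unfold keysD
  rw [mem_filter]
  refine ⟨Pool.Agent.Helper54.T5g.Skey_mem hm hl ht
    (fun j => Pool.Agent.Helper54.T5g.Bd_pos m k l) hy f, ?_⟩
  exact hs

theorem key_not_mem_deep {ls ld ld' : ℕ} (hs : t < s) (f : Fin 3) (o : JF → ℕ)
    (y : Fin 3 → ℕ) : (Ss m k ls t o).key f y ∉ deep m k ld ld' s := by
  classical
  unfold deep keysD
  rw [mem_union, mem_filter, mem_filter]
  rintro (⟨-, h⟩ | ⟨-, h⟩)
  · exact absurd (show s ≤ t from h) (not_le.2 hs)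
  · exact absurd (show s ≤ t from h) (not_le.2 hs)

theorem cs_congr0 {w w' : Key → ℕ} {o : JF → ℕ} {y : Fin 3 → ℕ}
    (h : ∀ f, w ((Ss m k l t o).key f y) = w' ((Ss m k l t o).key f y)) :
    cs m k l t w o y = cs m k l t w' o y := by
  unfold cs Side.cd Pool.Agent.Helper22.HW.lc
  congr 1
  funext f
  unfold Side.rho
  rw [h f]

theorem Vw_congr0 (hm : m.Ok) (hl : bb 0 ≤ mL m k l) {w w' : Key → ℕ}
    (h : ∀ q ∈ keysD m k l s, w q = w' q) : Vw m k l w = Vw m k l w' := rfl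

/-- **dependence of the windows** -/
theorem Zw_congr (hm : m.Ok) (hl : bb 0 ≤ mL m k l) {w w' : Key → ℕ}
    (h : ∀ q ∈ keysD m k l s, w q = w' q) : Zw m k l s w = Zw m k l s w' := by
  unfold Zw
  rw [Vw_congr0 hm hl h]
  refine Finset.image_congr (fun q hq => ?_)
  rw [mem_coe, mem_product, Fintype.mem_piFinset] at hq
  congr 1
  refine Finset.sum_congr rfl (fun i _ => cs_congr0 (fun f => h _ ?_))
  exact key_mem_keysD hm hl (by omega) (by have := i.2; omega) (hq.1 i) f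

theorem Bw_congr (hm : m.Ok) (hl : bb 0 ≤ mL m k l) {w w' : Key → ℕ}
    (h : ∀ q ∈ keysD m k l s, w q = w' q) : Bw m k l s w = Bw m k l s w' := by
  unfold Bw
  rw [Zw_congr hm hl h]

theorem Zw_congr_deep (hm : m.Ok) (hl : bb 0 ≤ mL m k l) (hl' : bb 0 ≤ mL m k l')
    {w w' : Key → ℕ} (h : ∀ q ∈ deep m k l l' s, w q = w' q) :
    Zw m k l s w = Zw m k l s w' ∧ Zw m k l' s w = Zw m k l' s w' :=
  ⟨Zw_congr hm hl (fun q hq => h q (mem_union_left _ hq)),
    Zw_congr hm hl' (fun q hq => h q (mem_union_right _ hq))⟩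

theorem Bw_congr_deep (hm : m.Ok) (hl : bb 0 ≤ mL m k l) (hl' : bb 0 ≤ mL m k l')
    {w w' : Key → ℕ} (h : ∀ q ∈ deep m k l l' s, w q = w' q) :
    Bw m k l s w = Bw m k l s w' ∧ Bw m k l' s w = Bw m k l' s w' :=
  ⟨Bw_congr hm hl (fun q hq => h q (mem_union_left _ hq)),
    Bw_congr hm hl' (fun q hq => h q (mem_union_right _ hq))⟩

/-- transfer of an event of the deep keys -/
theorem to_deep {K : Finset Key} (hK : keysOf m k l ⊆ K)
    (hK' : keysOf m k l' ⊆ K) {A : (Key → ℕ) → Prop} {ε : ℝ}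
    (hA : ∀ w w' : Key → ℕ, (∀ q ∈ deep m k l l' s, w q = w' q) → (A w ↔ A w'))
    (h : Pool.Agent.Helper22.SL.PrG (Mk m k) K A ε) :
    Pool.Agent.Helper22.SL.PrG (Mk m k) (deep m k l l' s) A ε :=
  (Pool.Agent.Helper42.T5.Pr.PrLe_dep_iff (fun q => Mk_pos m k q) (deep_sub hK hK') hA).1 h

end Pool.Agent.Helper22.NEARg
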