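import Pool.Agent.Helper22.NEARg.Stmts
import Pool.Agent.Helper44.T5g.NearLate
import Pool.Agent.Helper30.T5g.BigQF

/-!
# T5g, block NEARb: reduction of a pair to the local systems of the common front
-/

set_option autoImplicit false

namespace Pool.Agent.Helper22.NEARg

open Finset
open Pool.Agent.Helper5.ET hiding Key Mk AA Rp keysOf el ext
open Pool.Agent.Helper27.T4
open Pool.Agent.Helper27.T5b
open Pool.Agent.Helper27.T5g hiding FF_pos dvd_cs cs_lt QQ_eq_NN c0_lt Jn_pos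
open Pool.Agent.Helper37.T5g
open Pool.Agent.Helper30.T5g hiding pz_prime pz_inj
open Pool.Agent.Helper22.HW Pool.Agent.Helper57.T5
open Pool.Agent.Helper99.T5g
open Pool.Agent.Helper84.T5g Pool.Agent.Helper44.T5 Pool.Agent.Helper44.T5g Pool.Agent.Helper44.T5b

/-- the count depends only on the class map modulo `D` -/
theorem cN_congr_cl {U U' : Finset ℕ} {I m D κ n : ℕ} {cl cl' : ℕ → ℕ}
    (h : ∀ i, cl i ≡ cl' i [MOD D]) : cN U U' I m D cl κ n = cN U U' I m D cl' κ n := by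
  unfold cN
  congr 1
  refine Finset.filter_congr (fun t _ => ?_)
  rw [h t.1]

/-- a bound for the primes of the joint families -/
theorem pJ_le (k s : ℕ) (i : JF) : pJ k s i ≤ 1000039 + BP k := by
  rcases i with f | i
  · exact (Pool.Agent.Helper30.T5g.pr_lt_buf f).le.trans (Nat.le_add_right _ _)
  · refine Fin.cases ?_ (fun f => ?_) i
    · exact Nat.le_add_right _ _
    · exact (Pool.Agent.Helper30.T5g.pz_le k (s + 1) f).trans (Nat.le_add_left _ _)

theorem CJ_le (k s : ℕ) : CJ k s ≤ (2 * (1000039 + BP k)) ^ 7 := by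
  unfold CJ
  refine (Finset.prod_le_prod' (g := fun _ => 2 * (1000039 + BP k)) (fun i _ => ?_)).trans ?_
  · have := pJ_le k s i
    omega
  · rw [Finset.prod_const]
    simp

theorem CS_le (k s t : ℕ) : CS k s t ≤ 8 := le_rfl

/-- the constant of the reduction -/
theorem CR_le {m : Sq} (hm : OkF m) : (2 * (1000039 + BP m.k)) ^ 7 *
    ((2 * (1000039 + BP m.k)) ^ 7 * 8 ^ (m.k + 1) * 4) ≤ 2 ^ (6 * m.q 0) := by
  have hB : 1 ≤ BP m.k := Pool.Agent.Helper99.T5g.BP_pos' m.k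
  have h1 : 2 * (1000039 + BP m.k) ≤ 2 ^ 40 * BP m.k := by
    have : 2 * 1000039 + 2 * BP m.k ≤ 2 ^ 40 * BP m.k := by
      calc 2 * 1000039 + 2 * BP m.k ≤ 2 * 1000039 * BP m.k + 2 * BP m.k := by nlinarith
        _ = 2000080 * BP m.k := by ring
        _ ≤ 2 ^ 40 * BP m.k := Nat.mul_le_mul_right _ (by norm_num)
    omega
  have h2 := hm.BP16_le
  have h3 := hm.k16_le
  generalize hY : 2 ^ 40 * BP m.k = Y at *
  have hY4 : 4 ≤ Y := by
    have : 2 ^ 40 * 1 ≤ 2 ^ 40 * BP m.k := Nat.mul_le_mul_left _ hB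
    omega
  generalize 2 * (1000039 + BP m.k) = X at *
  have h4 : 8 ^ (m.k + 1) ≤ 2 ^ m.q 0 := by
    refine le_trans ?_ h3
    calc 8 ^ (m.k + 1) ≤ 16 ^ (m.k + 1) := Nat.pow_le_pow_left (by norm_num) _
      _ ≤ _ := Nat.pow_le_pow_right (by norm_num) (by omega)
  calc X ^ 7 * (X ^ 7 * 8 ^ (m.k + 1) * 4)
      ≤ Y ^ 7 * (Y ^ 7 * 2 ^ m.q 0 * Y) := by gcongr
    _ = Y ^ 15 * 2 ^ m.q 0 := by ring
    _ ≤ Y ^ 16 * 2 ^ m.q 0 := Nat.mul_le_mul_right _ (Nat.pow_le_pow_right (by omega) (by omega))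
    _ ≤ 2 ^ m.q 0 * 2 ^ m.q 0 := Nat.mul_le_mul_right _ h2
    _ = 2 ^ (2 * m.q 0) := by rw [← pow_add, two_mul]
    _ ≤ 2 ^ (6 * m.q 0) := Nat.pow_le_pow_right (by norm_num) (by omega)

/-- Nb1 -/
theorem near_R (m : Sq) (hm : OkF m) : NearRS 6 m := by
  have hQ := Pool.Agent.Helper30.T5g.bigQ_of_okF hm
  obtain ⟨l0, h0⟩ := near_R_late (m := m) hm.toOk m.k
  refine ⟨l0, ?_⟩
  intro t l' l hl' h w R hR n
  have hr := rL_le (m := m) hm.toOk m.k l
  have ht := h.tr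
  have key := h0 l l' t hl' h.le h.same (ht.le.trans h.rL_le) h.t1 ht.le h.com w R n ?_
  · refine key.trans ?_
    have e1 : ∏ u ∈ range t, CS m.k (sL m m.k l) u ≤ 8 ^ (m.k + 1) := by
      refine (Finset.prod_le_prod' (g := fun _ => 8) (fun i _ => CS_le m.k _ i)).trans ?_
      rw [Finset.prod_const, card_range]
      exact Nat.pow_le_pow_right (by norm_num) (by omega)
    have e2 := CJ_le m.k (sL m m.k l)
    have e3 := CR_le hm
    generalize (2 * (1000039 + BP m.k)) ^ 7 = X at *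
    generalize 8 ^ (m.k + 1) = Y at *
    calc CJ m.k (sL m m.k l) * ((CJ m.k (sL m m.k l) *
          ∏ u ∈ range t, CS m.k (sL m m.k l) u) * (4 * R))
        ≤ X * ((X * Y) * (4 * R)) := by gcongr
      _ = X * (X * Y * 4) * R := by ring
      _ ≤ _ := Nat.mul_le_mul_right _ e3
  · intro θ hθ γ N Qi' hQi κ₂ hκ
    have hD : 0 < DJ m m.k l l' t := by
      unfold DJ NN
      exact Finset.prod_pos (fun i _ => pow_pos (pJ_prime m.k _ i).pos _)
    have : NeZero (DJ m m.k l l' t) := ⟨hD.ne'⟩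
    have h1 := hR (θ, γ % DJ m m.k l l' t, κ₂, N) ⟨hθ, Nat.mod_lt _ hD, hκ⟩
    refine le_trans (le_of_eq ?_) h1
    unfold cNx bm
    refine cN_congr_cl (fun i => ?_)
    unfold clx
    simp only
    refine Nat.ModEq.mul ?_ (Nat.ModEq.add_left _ (Nat.mod_modEq _ _).symm)
    -- the two inverses agree
    rw [← ZMod.natCast_eq_natCast_iff] at hQi ⊢
    push_cast at hQi
    unfold Qi
    rw [ZMod.natCast_zmod_val]
    exact (ZMod.inv_eq_of_mul_eq_one _ _ _ hQi).symm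

end Pool.Agent.Helper22.NEARg
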