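import Pool.Agent.Helper22.NEARg.Defs

/-!
# T5g, block NEARg: the statements of the lines

All schedules are `OkF m`, the number of active levels is `k = m.k`.  The last windows have one
element, so the lines Nb8 and Nb9 are deterministic.
-/

set_option autoImplicit false

namespace Pool.Agent.Helper22.NEARg

open Finset
open Pool.Agent.Helper5.ET hiding Key Mk AA Rp keysOf el ext
open Pool.Agent.Helper27.T4
open Pool.Agent.Helper27.T5g Pool.Agent.Helper37.T5g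
open Pool.Agent.Helper30.T5g hiding pz_prime pz_inj
open Pool.Agent.Helper22.HW Pool.Agent.Helper22.SL Pool.Agent.Helper57.T5
open Pool.Agent.Helper39.T5 Pool.Agent.Helper50.T5 Pool.Agent.Helper99.T5g
open Pool.Agent.Helper84.T5g Pool.Agent.Helper44.T5 Pool.Agent.Helper44.T5g Pool.Agent.Helper44.T5b

/-- Nb1: reduction of a pair to the local systems of the common front -/
def NearRS (E : ℕ) (m : Sq) : Prop := ∃ K0 : ℕ, ∀ t l' l, K0 ≤ l' → PDb m m.k t l' l →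
    ∀ (w : Key → ℕ) (R : ℕ), (∀ c : Cx, IsCx m m.k t l' l c → cNx m m.k t l' l w c ≤ R) →
    ∀ n, Rp m m.k l l' w n ≤ 2 ^ (E * m.q 0) * R

/-- Nb2: finitely many contexts suffice -/
def BadCtxS (m : Sq) (k : ℕ) : Prop := ∃ K0 : ℕ, ∀ t l' l, K0 ≤ l' → PDb m k t l' l →
    ∀ (w : Key → ℕ) (R : ℝ), 0 ≤ R → Bad m k t l' l R w →
    ∃ c ∈ Jx m k t l' l, R < cNx m k t l' l w c

/-- Nb3: the number of contexts -/
def CardJxS (m : Sq) (k : ℕ) : Prop := ∃ K0 : ℕ, ∀ t l' l, K0 ≤ l' → PDb m k t l' l →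
    ((Jx m k t l' l).card : ℝ) ≤ Real.exp (90 * wW m k l t)

/-- Nb0: numbers of a pair -/
def NumS (m : Sq) (k : ℕ) : Prop := ∃ K0 : ℕ, ∀ t l' l, K0 ≤ l' → PDb m k t l' l →
    20 * (l - l') < 7 * wW m k l t ∧ hb m k t l' l ≤ 3 ∧
      (∀ i, i < rL m k l → 2 ^ 10 * wW m k l (i + 1) ≤ wW m k l i)

/-- Nb4: the static block, all contexts -/
def SlInstS (m : Sq) (k : ℕ) : Prop := ∃ K0 : ℕ, ∀ t l' l, K0 ≤ l' → PDb m k t l' l →
    ∀ K : Finset Key, keysOf m k l ⊆ K → keysOf m k l' ⊆ K →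
    ∀ (R0 n : ℕ), 1 ≤ n → ∀ δ ε : ℝ, δ ≤ wW m k l (sb m k t l' l) → ∀ A : (Key → ℕ) → Prop,
    Pool.Agent.Helper22.SL.PrG (Mk m k) (deep m k l l' (sb m k t l' l)) A ε →
    (∀ w : Key → ℕ, (∀ q, w q < Mk m k q) → ¬ A w →
      (∀ c ∈ Jx m k t l' l, PPx m k t l' l w c ≤ Real.exp (-δ)) ∧
      ∀ n, ((Zw m k l (sb m k t l' l) w ×ˢ Zw m k l' (sb m k t l' l) w).filter
        (fun q => q.1 + q.2 = n)).card ≤ R0) →
    Pool.Agent.Helper22.SL.PrG (Mk m k) K (fun w => ∃ c ∈ Jx m k t l' l,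
      (n + 1) ^ 2 ^ (4 * hb m k t l' l) * (Pool.Agent.Helper39.SL.Cd (PN m k t l' l) * R0)
        < cNx m k t l' l w c)
      (ε + (Jx m k t l' l).card * ((3 * (hb m k t l' l : ℝ) + 1) *
        Real.exp (42 * wW m k l t) * Real.exp (-δ) ^ (n + 1)))

/-- Nb5: regularity of all windows -/
def RegAllS (m : Sq) (k : ℕ) : Prop := ∃ K0 : ℕ, ∀ l i, K0 ≤ l → 1 ≤ i → i ≤ rL m k l →
    ∀ K, keysOf m k l ⊆ K →
    Pool.Agent.Helper22.SL.PrG (Mk m k) K (fun w => ¬ RegE m k l i w)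
      (Real.exp (-(wW m k l i : ℝ)))

/-- Nb6: size of the windows -/
def BwLtS (m : Sq) (k : ℕ) : Prop := ∃ K0 : ℕ, ∀ l i, K0 ≤ l → 1 ≤ i → i ≤ rL m k l →
    ∀ w : Key → ℕ, ∀ b ∈ Bw m k l i w,
      (b : ℝ) < Real.exp ((wW m k l i : ℝ) * lam + (wW m k l i : ℝ) / 10000)

/-- Nb7: regular windows -/
def PpRegS (m : Sq) (k : ℕ) : Prop := ∃ K0 : ℕ, ∀ t l' l, K0 ≤ l' → PDb m k t l' l →
    CaseReg m k t l' l → ∀ w : Key → ℕ,
    RegE m k l (sb m k t l' l) w → RegE m k l' (sb m k t l' l) w →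
    ∀ c ∈ Jx m k t l' l, PPx m k t l' l w c ≤ Real.exp (-(dReg m k t l' l))

/-- Nb8: pairs of elements of the inner windows, no event or DROP (deterministic) -/
def ZbadS (E : ℕ) (m : Sq) : Prop := ∃ K0 : ℕ, ∀ l' l i, K0 ≤ l' →
    l' ≤ l → Near m m.k l' l → Same m m.k l' l → bL m m.k l' ≤ bL m m.k l →
    1 ≤ i → i ≤ rL m m.k l → ∀ w : Key → ℕ, (∀ q, w q < Mk m m.k q) → ∀ n : ℕ,
    ((Zw m m.k l i w ×ˢ Zw m m.k l' i w).filter (fun q => q.1 + q.2 = n)).card ≤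
      2 ^ (E * m.q 0)

/-- Nb9: the last windows (one element), small distance (deterministic) -/
def PpBotS (m : Sq) (k : ℕ) : Prop := ∃ K0 : ℕ, ∀ t l' l, K0 ≤ l' →
    PDb m k t l' l → SameB m k l' l → CaseBt m k t l' l → ∀ w : Key → ℕ,
    ∀ c ∈ Jx m k t l' l, PPx m k t l' l w c ≤ Real.exp (-(dReg m k t l' l))

/-- Nb10: exponents, all pairs -/
def NumRegS : Prop := ∀ E1 : ℕ, ∃ E : ℕ, ∀ m : Sq, OkF m → ∃ K0 : ℕ,
    ∀ t l' l, K0 ≤ l' → PDb m m.k t l' l → ∃ n : ℕ, 1 ≤ n ∧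
      42 * (wW m m.k l t : ℝ) + 3 + SS m (bL m m.k l) +
        90 * wW m m.k l t ≤ (n + 1 : ℕ) * dReg m m.k t l' l ∧
      (n + 1) ^ 2 ^ (4 * hb m m.k t l' l) *
        (Pool.Agent.Helper39.SL.Cd (PN m m.k t l' l) * 2 ^ (E1 * m.q 0)) ≤ 2 ^ (E * m.q 0)

/-- all lines -/
structure Lines : Prop where
  nearR : ∃ E, ∀ m : Sq, OkF m → NearRS E m
  badCtx : ∀ m : Sq, OkF m → BadCtxS m m.k
  cardJx : ∀ m : Sq, OkF m → CardJxS m m.k
  num : ∀ m : Sq, OkF m → NumS m m.k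
  slInst : ∀ m : Sq, OkF m → SlInstS m m.k
  regAll : ∀ m : Sq, OkF m → RegAllS m m.k
  ppReg : ∀ m : Sq, OkF m → PpRegS m m.k
  zbad : ∃ E, ∀ m : Sq, OkF m → ZbadS E m
  ppBot : ∀ m : Sq, OkF m → PpBotS m m.k
  numReg : NumRegS

end Pool.Agent.Helper22.NEARg
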