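import Pool.Agent.Helper22.NEARg.NearR
import Pool.Agent.Helper22.NEARg.Dep
import Pool.Agent.Helper22.NEAR.Glue
import Pool.Agent.Helper75.T5g.Up

/-!
# T5g, block NEARg: assembly

The last windows have one element; the bad event of the windows is the failure of the regularity
(`CaseReg`), nothing at all in the case of the last windows (`CaseBt`).
-/

set_option autoImplicit false

namespace Pool.Agent.Helper22.NEARg

open Finset
open Pool.Agent.Helper5.ET hiding Key Mk AA Rp keysOf el ext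
open Pool.Agent.Helper27.T4
open Pool.Agent.Helper27.T5g hiding FF_pos dvd_cs cs_lt QQ_eq_NN c0_lt Jn_pos
open Pool.Agent.Helper37.T5g Pool.Agent.Helper99.T5g
open Pool.Agent.Helper30.T5g hiding pz_prime pz_inj
open Pool.Agent.Helper22.HW Pool.Agent.Helper22.SL Pool.Agent.Helper57.T5
open Pool.Agent.Helper84.T5g Pool.Agent.Helper44.T5 Pool.Agent.Helper44.T5g Pool.Agent.Helper44.T5b

/-! ## sizes -/

theorem SS_add {m : Sq} (hm : OkF m) (b r : ℕ) :
    SS m (b + r) = SS m b * 2 ^ ((m.q 0 + 1) * r) := by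
  unfold SS
  rw [hm.aa_eq, hm.aa_eq, ← pow_add]
  congr 1
  ring

/-- the last size is a constant part of the state -/
theorem exists_le_SS_bL {m : Sq} (hm : OkF m) : ∃ C l0 : ℕ, 1 ≤ C ∧ ∀ l ≥ l0,
    l ≤ C * SS m (bL m m.k l) := by
  obtain ⟨E, hE⟩ := Pool.Agent.Helper75.T5g.exists_le_SS_sL
  obtain ⟨l0, h0⟩ := hE m hm
  refine ⟨2 ^ (E * m.q 0) * 2 ^ ((m.q 0 + 1) * (m.k + 1)), l0,
    Nat.mul_pos (by positivity) (by positivity), fun l hl => ?_⟩
  have h1 := h0 l hl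
  obtain ⟨-, -, -, h2, h3, -⟩ := rL_bounds hm.toOk m.k l
  have h4 : SS m (sL m m.k l) ≤ SS m (bL m m.k l) * 2 ^ ((m.q 0 + 1) * (m.k + 1)) := by
    rw [← h3, SS_add hm]
    exact Nat.mul_le_mul_left _ (Nat.pow_le_pow_right (by norm_num) (Nat.mul_le_mul_left _ h2))
  calc l ≤ 2 ^ (E * m.q 0) * SS m (sL m m.k l) := h1
    _ ≤ 2 ^ (E * m.q 0) * (SS m (bL m m.k l) * 2 ^ ((m.q 0 + 1) * (m.k + 1))) :=
        Nat.mul_le_mul_left _ h4
    _ = _ := by ring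

/-- power form -/
theorem exists_sqrt_le_SS_bL {m : Sq} (hm : OkF m) : ∃ l0 : ℕ, ∀ l l' : ℕ, l0 ≤ l' → l ≤ 2 * l' →
    (l : ℝ) ^ (1 / 2 : ℝ) ≤ SS m (bL m m.k l') := by
  obtain ⟨C, l0, hC, h0⟩ := exists_le_SS_bL hm
  refine ⟨l0 + 2 * C ^ 2, fun l l' hl' hl => ?_⟩
  have h1 := h0 l' (by omega)
  have h2 : (l' : ℝ) ≤ C * SS m (bL m m.k l') := by exact_mod_cast h1
  have h3 : 2 * (C : ℝ) ^ 2 ≤ l' := by exact_mod_cast (show 2 * C ^ 2 ≤ l' by omega)
  have h4 : (l : ℝ) ≤ 2 * l' := by exact_mod_cast hl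
  have hC0 : (0 : ℝ) < C := by exact_mod_cast hC
  rw [← Real.sqrt_eq_rpow, Real.sqrt_le_left (Nat.cast_nonneg _)]
  have h5 : (0 : ℝ) ≤ SS m (bL m m.k l') := Nat.cast_nonneg _
  have h6 : (l' : ℝ) * (l' : ℝ) ≤ (C * SS m (bL m m.k l')) * (C * SS m (bL m m.k l')) :=
    mul_self_le_mul_self (Nat.cast_nonneg _) h2
  have h7 : 2 * (C : ℝ) ^ 2 * l' ≤ l' * l' := mul_le_mul_of_nonneg_right h3 (Nat.cast_nonneg _)
  have h8 : (C : ℝ) ^ 2 * (2 * l') ≤ C ^ 2 * (SS m (bL m m.k l')) ^ 2 := by nlinarith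
  have h9 : 2 * (l' : ℝ) ≤ (SS m (bL m m.k l') : ℝ) ^ 2 :=
    le_of_mul_le_mul_left h8 (by positivity)
  exact h4.trans h9

/-! ## the cases -/

theorem MidB.mono {m : Sq} {E E' : ℕ} {Q Q' : ℕ → ℕ → ℕ → Prop} (h : MidB m Q E) (hE : E ≤ E')
    (hQ : ∀ t l' l, Q' t l' l → Q t l' l) : MidB m Q' E' := by
  obtain ⟨c0, m', K0, h2, h3, h⟩ := h
  refine ⟨c0, m', K0, h2, h3, ?_⟩
  intro t l' l hl' hPD hA hq K hK hK'
  refine PrG_mono (fun w _ hw => ?_) le_rfl (h t l' l hl' hPD hA (hQ _ _ _ hq) K hK hK')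
  obtain ⟨c, hc1, hc2⟩ := hw
  refine ⟨c, hc1, lt_of_le_of_lt ?_ hc2⟩
  exact_mod_cast Nat.pow_le_pow_right (show 0 < 2 by norm_num) (Nat.mul_le_mul_right _ hE)

theorem MidB.or {m : Sq} {E : ℕ} {Q Q' : ℕ → ℕ → ℕ → Prop} (h : MidB m Q E) (h' : MidB m Q' E) :
    MidB m (fun t l' l => Q t l' l ∨ Q' t l' l) E := by
  obtain ⟨c0, m1, K0, h2, h3, h⟩ := h
  obtain ⟨c0', m1', K0', h2', h3', h'⟩ := h'
  refine ⟨min c0 c0', max m1 m1', max K0 K0' + 1, lt_min h2 h2', le_max_of_le_left h3, ?_⟩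
  intro t l' l hl' hPD hA hq K hK hK'
  have hlt := hPD.le
  have hl1 : (1 : ℝ) ≤ (l : ℝ) := by exact_mod_cast (show 1 ≤ l by omega)
  have e1 : K0 ≤ max K0 K0' := le_max_left _ _
  have e2 : K0' ≤ max K0 K0' := le_max_right _ _
  rcases hq with hq | hq
  · refine PrG_mono (fun w _ hw => hw) ?_ (h t l' l (by omega) hPD hA hq K hK hK')
    refine mul_le_mul (le_max_left _ _) (Real.exp_le_exp.2 (neg_le_neg ?_))
        (Real.exp_pos _).le (le_max_of_le_left h3)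
    exact Real.rpow_le_rpow_of_exponent_le hl1 (min_le_left _ _)
  · refine PrG_mono (fun w _ hw => hw) ?_ (h' t l' l (by omega) hPD hA hq K hK hK')
    refine mul_le_mul (le_max_right _ _) (Real.exp_le_exp.2 (neg_le_neg ?_))
        (Real.exp_pos _).le (le_max_of_le_right h3')
    exact Real.rpow_le_rpow_of_exponent_le hl1 (min_le_right _ _)

theorem sb_le {m : Sq} {k t l' l : ℕ} (h : PDb m k t l' l) : sb m k t l' l ≤ rL m k l := hb_le h.tr

theorem one_le_sb {m : Sq} {k t l' l : ℕ} (h : PDb m k t l' l) : 1 ≤ sb m k t l' l := by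
  have := h.t1
  unfold sb
  omega

/-- near states are of the same size -/
theorem exists_near (m : Sq) (k : ℕ) (hm : m.Ok) [hQ : BigQ m k] :
    ∃ K0 : ℕ, ∀ t l' l, K0 ≤ l' → PDb m k t l' l →
    bb 0 ≤ mL m k l' ∧ bb 0 ≤ mL m k l ∧ l ≤ 2 * l' := by
  obtain ⟨l0, h0⟩ := exists_conds hm k
  refine ⟨l0, fun t l' l hl' h => ?_⟩
  obtain ⟨a1, -, a3, -⟩ := h0 l' hl'
  obtain ⟨b1, -, -, -⟩ := h0 l (hl'.trans h.le)
  refine ⟨a1, b1, ?_⟩
  have hfr' : ez m (sL m k l - t) l' = ez m (sL m k l - t) l := by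
    have h1 : ez m (sL m k l' - t) l' = ez m (sL m k l - t) l := h.com
    rw [h.sL_eq] at h1
    exact h1
  have h1 := dist_of_common hm h.le hfr'
  have h3 := PZ_mul hm (sL m k l - t)
  have h4 : SS m (sL m k l - t) ≤ SS m (sL m k l' + 1) :=
    SS_mono m (by have := h.sL_eq; omega)
  have h5 : mL m k l' ≤ l' := Pool.Agent.Helper27.T5b.l1_le _ _
  omega

/-- from the windows to the bound of the pair -/
theorem case_gen (L : Lines) {m : Sq} (hm : OkF m) : ∃ K0 : ℕ, ∀ t l' l, K0 ≤ l' →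
    PDb m m.k t l' l → ∀ K : Finset Key,
    keysOf m m.k l ⊆ K → keysOf m m.k l' ⊆ K → ∀ (n : ℕ) (δ ε X : ℝ) (R0 : ℕ)
    (A : (Key → ℕ) → Prop), 1 ≤ n → δ ≤ wW m m.k l (sb m m.k t l' l) →
    42 * (wW m m.k l t : ℝ) + 3 + X + 90 * wW m m.k l t ≤ (n + 1 : ℕ) * δ →
    PrG (Mk m m.k) (deep m m.k l l' (sb m m.k t l' l)) A ε →
    (∀ w : Key → ℕ, (∀ q, w q < Mk m m.k q) → ¬ A w →
      (∀ c ∈ Jx m m.k t l' l, PPx m m.k t l' l w c ≤ Real.exp (-δ)) ∧
      ∀ n, ((Zw m m.k l (sb m m.k t l' l) w ×ˢ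
        Zw m m.k l' (sb m m.k t l' l) w).filter (fun q => q.1 + q.2 = n)).card ≤ R0) →
    PrG (Mk m m.k) K (Bad m m.k t l' l
      (((n + 1) ^ 2 ^ (4 * hb m m.k t l' l) *
        (Pool.Agent.Helper39.SL.Cd (PN m m.k t l' l) * R0) : ℕ) : ℝ)) (ε + Real.exp (-X)) := by
  obtain ⟨k1, h1⟩ := L.slInst m hm
  obtain ⟨k2, h2⟩ := L.badCtx m hm
  obtain ⟨k3, h3⟩ := L.cardJx m hm
  obtain ⟨k4, h4⟩ := L.num m hm
  refine ⟨k1 + k2 + k3 + k4, ?_⟩
  intro t l' l hl' h K hK hK' n δ ε X R0 A hn hδ hX hA hgood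
  have key := h1 t l' l (by omega) h K hK hK' R0 n hn δ ε hδ A hA hgood
  refine PrG_mono (fun r _ hw => ?_) ?_ key
  · obtain ⟨c, hc1, hc2⟩ := h2 t l' l (by omega) h _ _ (Nat.cast_nonneg _) hw
    exact ⟨c, hc1, Nat.cast_lt.1 hc2⟩
  · refine add_le_add le_rfl ?_
    exact Pool.Agent.Helper63.T5.fail_num (h0 := hb m m.k t l' l)
      (h4 t l' l (by omega) h).2.1 (h3 t l' l (by omega) h) hX

/-- the pairs of a case from the probability that the windows are bad; `B` is the bad event of the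
windows, it depends on the deep keys only -/
theorem mid_of (L : Lines) {Q : Sq → ℕ → ℕ → ℕ → Prop}
    (B : Sq → ℕ → ℕ → ℕ → (Key → ℕ) → Prop)
    (hB : ∀ m : Sq, OkF m → ∃ K0 : ℕ, ∀ t l' l, K0 ≤ l' → PDb m m.k t l' l →
      Apart m m.k l' l → Q m t l' l →
      PrG (Mk m m.k) (deep m m.k l l' (sb m m.k t l' l)) (B m t l' l)
        (2 * Real.exp (-(SS m (bL m m.k l') : ℝ))) ∧
      ∀ w, ¬ B m t l' l w → ∀ c ∈ Jx m m.k t l' l,
        PPx m m.k t l' l w c ≤ Real.exp (-(dReg m m.k t l' l))) :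
    ∃ E : ℕ, ∀ m : Sq, OkF m → MidB m (Q m) E := by
  obtain ⟨E1, hZ⟩ := L.zbad
  obtain ⟨E, hN⟩ := L.numReg E1
  refine ⟨E, fun m hm => ?_⟩
  have hQ' := Pool.Agent.Helper30.T5g.bigQ_of_okF hm
  obtain ⟨k0, hz⟩ := hZ m hm
  obtain ⟨k1, hn⟩ := hN m hm
  obtain ⟨k2, hb⟩ := hB m hm
  obtain ⟨k3, hlast⟩ := exists_sqrt_le_SS_bL hm
  obtain ⟨k4, hgen⟩ := case_gen L hm
  obtain ⟨k5, hnear⟩ := exists_near m m.k hm.toOk
  refine ⟨1 / 2, 3, k0 + k1 + k2 + k3 + k4 + k5, by norm_num, by norm_num, ?_⟩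
  intro t l' l hl' h hA hq K hK hK'
  obtain ⟨n, hn1, hn2, hn3⟩ := hn t l' l (by omega) h
  obtain ⟨hB1, hB2⟩ := hb t l' l (by omega) h hA hq
  obtain ⟨g1, g2, g3⟩ := hnear t l' l (by omega) h
  have hle := h.le
  have e1 : Real.exp (-(SS m (bL m m.k l') : ℝ)) ≤ Real.exp (-((l : ℝ) ^ (1 / 2 : ℝ))) :=
    Real.exp_le_exp.2 (neg_le_neg (hlast l l' (by omega) g3))
  have e2 : Real.exp (-(SS m (bL m m.k l) : ℝ)) ≤ Real.exp (-((l : ℝ) ^ (1 / 2 : ℝ))) :=
    Real.exp_le_exp.2 (neg_le_neg (hlast l l (by omega) (by omega)))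
  have hδ : dReg m m.k t l' l ≤ wW m m.k l (sb m m.k t l' l) := by
    unfold dReg
    have : (0 : ℝ) ≤ wW m m.k l (sb m m.k t l' l) := Nat.cast_nonneg _
    linarith
  have key := hgen t l' l (by omega) h K hK hK' n (dReg m m.k t l' l) _ (SS m (bL m m.k l))
    (2 ^ (E1 * m.q 0)) _ hn1 hδ hn2 hB1
    (fun w hw hA => ⟨hB2 w hA, fun n => hz l' l (sb m m.k t l' l) (by omega) h.le h.near h.same
      h.ble (one_le_sb h) (sb_le h) w hw n⟩)
  refine PrG_mono (fun r _ hw => ?_) ?_ key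
  · obtain ⟨c, hc1, hc2⟩ := hw
    exact ⟨c, hc1, lt_of_le_of_lt (Nat.cast_le.2 hn3) hc2⟩
  · linarith

theorem wW_ge {m : Sq} {k t l' l : ℕ} (h : PDb m k t l' l) :
    SS m (bL m k l') ≤ wW m k l (sb m k t l' l) := by
  unfold wW
  refine SS_mono m ?_
  have a1 := h.ble
  have a2 : rL m k l = sL m k l - bL m k l := rfl
  have a3 := h.tr
  have a4 := sb_le h
  omega

theorem regE_congr {m : Sq} {k l s : ℕ} (hm : m.Ok) (hl : bb 0 ≤ mL m k l) {w w' : Key → ℕ}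
    (h : ∀ q ∈ keysD m k l s, w q = w' q) : RegE m k l s w ↔ RegE m k l s w' := by
  unfold RegE
  rw [Bw_congr hm hl h]

/-- **regular windows** -/
theorem case_reg (L : Lines) : ∃ E : ℕ, ∀ m : Sq, OkF m →
    MidB m (fun t l' l => CaseReg m m.k t l' l) E := by
  refine mid_of L (fun m t l' l w => ¬ RegE m m.k l (sb m m.k t l' l) w ∨
    ¬ RegE m m.k l' (sb m m.k t l' l) w) (fun m hm => ?_)
  have hQ := Pool.Agent.Helper30.T5g.bigQ_of_okF hm
  obtain ⟨k1, h1⟩ := L.regAll m hm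
  obtain ⟨k2, h2⟩ := L.ppReg m hm
  obtain ⟨k3, h3⟩ := exists_near m m.k hm.toOk
  refine ⟨k1 + k2 + k3, ?_⟩
  intro t l' l hl' h _ hq
  obtain ⟨g1, g2, -⟩ := h3 t l' l (by omega) h
  have hs := sb_le h
  have hs1 := one_le_sb h
  have hle := h.le
  refine ⟨?_, fun w hw c hc => ?_⟩
  · refine to_deep (K := keysOf m m.k l ∪ keysOf m m.k l') subset_union_left
      subset_union_right (fun w w' hww => ?_) ?_
    · rw [regE_congr hm.toOk g2 (fun q hq => hww q (mem_union_left _ hq)),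
        regE_congr hm.toOk g1 (fun q hq => hww q (mem_union_right _ hq))]
    · have r1 := h1 l _ (by omega) hs1 hs _ (subset_union_left (s₂ := keysOf m m.k l'))
      have r2 := h1 l' (sb m m.k t l' l) (by omega) hs1 (hs.trans h.rL_le) _
        (subset_union_right (s₁ := keysOf m m.k l))
      refine PrG_mono (fun _ _ hw => hw) ?_ (PrG_or r1 r2)
      have e1 := wW_ge h
      have e2 : SS m (bL m m.k l') ≤ wW m m.k l' (sb m m.k t l' l) := by
        rw [h.wW_eq]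
        exact e1
      have f1 : Real.exp (-(wW m m.k l (sb m m.k t l' l) : ℝ)) ≤
          Real.exp (-(SS m (bL m m.k l') : ℝ)) :=
        Real.exp_le_exp.2 (neg_le_neg (Nat.cast_le.2 e1))
      have f2 : Real.exp (-(wW m m.k l' (sb m m.k t l' l) : ℝ)) ≤
          Real.exp (-(SS m (bL m m.k l') : ℝ)) :=
        Real.exp_le_exp.2 (neg_le_neg (Nat.cast_le.2 e2))
      linarith
  · rw [not_or, not_not, not_not] at hw
    exact h2 t l' l (by omega) h hq w hw.1 hw.2 c hc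

/-- the empty event -/
theorem PrG_false' {M : Key → ℕ} (K : Finset Key) {ε : ℝ} (hε : 0 ≤ ε) :
    PrG M K (fun _ => False) ε := by
  rw [Pool.Agent.Helper22.NEAR.PrG_iff_PrLe]
  exact Pool.Agent.Helper42.T5.Pr.PrLe_false (fun _ _ h => h) hε

/-- **the last windows** -/
theorem case_bot (L : Lines) : ∃ E : ℕ, ∀ m : Sq, OkF m →
    MidB m (fun t l' l => SameB m m.k l' l ∧ CaseBt m m.k t l' l) E := by
  refine mid_of L (fun _ _ _ _ _ => False) (fun m hm => ?_)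
  obtain ⟨k0, h0⟩ := L.ppBot m hm
  refine ⟨k0, ?_⟩
  rintro t l' l hl' h _ ⟨hq1, hq2⟩
  exact ⟨PrG_false' _ (by positivity), fun w _ c hc => h0 t l' l hl' h hq1 hq2 w c hc⟩

/-- **all pairs with a common front which is not the last one** -/
theorem mid_all (L : Lines) : ∃ E : ℕ, ∀ m : Sq, OkF m → MidB m (fun _ _ _ => True) E := by
  obtain ⟨E1, h1⟩ := case_reg L
  obtain ⟨E2, h2⟩ := case_bot L
  refine ⟨max E1 E2, fun m hm => ?_⟩
  have a1 := (h1 m hm).mono (E' := max E1 E2) (le_max_left _ _) (fun _ _ _ h => h)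
  have a2 := (h2 m hm).mono (E' := max E1 E2) (le_max_right _ _) (fun _ _ _ h => h)
  obtain ⟨c0, m', K0, x2, x3, h⟩ := a1.or a2
  refine ⟨c0, m', K0, x2, x3, ?_⟩
  intro t l' l hl' hPD hA _ K hK hK'
  refine h t l' l hl' hPD hA ?_ K hK hK'
  have e1 := hb_spec m m.k t l' l
  have e2 := hb_le (m := m) (k := m.k) (l' := l') hPD.tr
  by_cases hr : CaseReg m m.k t l' l
  · exact Or.inl hr
  refine Or.inr ?_
  unfold CaseReg sb at hr
  have e4 : t + hb m m.k t l' l = rL m m.k l := by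
    rcases e1 with e1 | e1
    · exact absurd e1 hr
    · omega
  rw [e4] at hr
  have e5 : wW m m.k l (rL m m.k l) = SS m (bL m m.k l) := by
    unfold wW rL
    have : sL m m.k l - bL m m.k l = rL m m.k l := rfl
    have h6 := hPD.tr
    congr 1
    omega
  rw [e5] at hr
  refine ⟨?_, e4, not_le.1 hr⟩
  by_contra hc
  rcases hA with hA | ⟨-, hA⟩
  · exact hPD.lt.ne hA
  · have h7 := hA hc
    omega

/-- the pairs of the property `P` from the local systems -/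
theorem blk_of (L : Lines) {P : Sq → ℕ → ℕ → ℕ → Prop}
    (hP : ∀ m k l' l, l' ≤ l → P m k l' l → ∃ t, PDb m k t l' l) :
    Blk P RpC := by
  obtain ⟨E, hE⟩ := mid_all L
  obtain ⟨E1, hR⟩ := L.nearR
  refine ⟨E1 + E, 0, fun m hm _ => ?_⟩
  obtain ⟨c0, m', K0, h2, h3, h⟩ := hE m hm
  obtain ⟨K1, hR⟩ := hR m hm
  refine ⟨K0 + K1, c0, m', h2, h3, ?_⟩
  intro l l' hl' hll hA hPl K hK hK'
  obtain ⟨t, hPD⟩ := hP m m.k l' l hll hPl
  have key := h t l' l (by omega) hPD hA trivial K hK hK'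
  rw [← Pool.Agent.Helper22.NEAR.PrG_iff_PrLe]
  refine PrG_mono (fun r _ hw => ?_) le_rfl key
  obtain ⟨c, ⟨n, hc⟩, hn⟩ := hw
  subst hc
  by_contra hcon
  have hbound : ∀ c : Cx, IsCx m m.k t l' l c → cNx m m.k t l' l (ext K r) c ≤
        2 ^ (E * m.q 0) := by
    intro c hc1
    by_contra hlt
    exact hcon ⟨c, hc1, Nat.cast_lt.2 (not_le.1 hlt)⟩
  have hRp := hR t l' l (by omega) hPD _ _ hbound n
  rw [← pow_add, ← add_mul] at hRp
  omega

/-- **`Blk CaseStat RpC`**, from the lines of the block -/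
theorem blk_stat_of (L : Lines) : Blk CaseStat RpC :=
  blk_of L (fun _ _ _ _ hl h => by
    obtain ⟨t, h1, -⟩ := PDb.of_case hl h
    exact ⟨t, h1⟩)

/-- **`Blk CaseStatD RpC`**, from the lines of the block -/
theorem blk_statD_of (L : Lines) : Blk CaseStatD RpC :=
  blk_of L (fun _ _ _ _ hl h => by
    obtain ⟨t, h1, -⟩ := PDb.of_caseD hl h
    exact ⟨t, h1⟩)

end Pool.Agent.Helper22.NEARg
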