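import Pool.Agent.Helper22.NEARg.Glue
import Pool.Agent.Helper39.T5g.Nb4
import Pool.Agent.Helper45.T5g.LinesG
import Pool.Agent.Helper50.T5g.BadCtxS
import Pool.Agent.Helper57.T5g.ZB
import Pool.Agent.Helper57.T5g.PpG
import Pool.Agent.Helper37.T5g.NumB

/-!
# T5g: the blocks STAT and STAT-D (near pairs of states without event or with one DROP, common
front of a static level which is not the last front)
-/

set_option autoImplicit false

namespace Pool.Agent.Helper22.NEARg

open Pool.Agent.Helper84.T5g

/-- all lines -/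
theorem lines : Lines where
  nearR := ⟨6, near_R⟩
  badCtx := fun _ hm => Pool.Agent.Helper50.T5g.badCtx_okF hm
  cardJx := fun _ hm => Pool.Agent.Helper50.T5g.cardJx_okF hm
  num := fun m hm => Pool.Agent.Helper63.T5g.numbers m m.k hm.toOk
  slInst := Pool.Agent.Helper39.T5g.slInst
  regAll := Pool.Agent.Helper45.T5g.regAllG
  ppReg := Pool.Agent.Helper45.T5g.ppRegG
  zbad := Pool.Agent.Helper57.T5g.zbad
  ppBot := Pool.Agent.Helper57.T5g.ppBot
  numReg := Pool.Agent.Helper37.T5g.NumB.num_reg

/-- **`Blk CaseStat RpC`** -/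
theorem blk_stat : Blk CaseStat RpC := blk_stat_of lines

/-- **`Blk CaseStatD RpC`** -/
theorem blk_statD : Blk CaseStatD RpC := blk_statD_of lines

end Pool.Agent.Helper22.NEARg
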